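import Mathlib
import Pool.Agent.R855.MT.QF

/-!
# Common `ℚ`-form of the `ℓ`-adic monodromy groups from several places of arbitrary type

Let `A` be an abelian variety over a number field `F`, `V = H_1(A(ℂ), ℚ)` with a basis indexed by
`ι`, `ψ` the matrix of a Riemann form, `E` the set of the matrices of the endomorphisms of `A` over
the algebraic closure of `F`, `Γ` the absolute Galois group of `F`, `ρ ℓ` its representation on
`V_ℓ = V ⊗ ℚ_ℓ` and `χ ℓ` the cyclotomic character.  The structure `Known` collects the known
properties of `ρ ℓ` (Weil pairing, Faltings, Hodge-Tate, Pink).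

The *strongly irreducible* subspaces `U` (predicate `SI`) of `ℚ_ℓ^alg ⊗ V_ℓ` are the minimal nonzero
subspaces that are stable under a subgroup of finite index of `Γ`.  If `End(A) = ℤ` there is just
one, the whole space.  All of them are self-dual with an alternating pairing exactly if all simple
factors of `A` are of type I or II in Albert's classification.

The *local operators* (`IsLocal`) are obtained from

* the operators `γ - 1`, for the elements `γ` of the group with `(γ - 1) ^ 2 = 0` (in the inertia
  groups of places of bad semistable reduction), and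
* the slope operators of the Frobenius elements `F`, at places of good or bad reduction: multiplication
  by `w (a) - w (χ F) / 2` on the eigenspace of the eigenvalue `a`, where `w` is a `p`-adic valuation
  (or any other homomorphism from the multiplicative group to the additive group),

by linear combinations, commutators and by taking *components*: the component of degree `d` of an
operator `y` with respect to the slope operator of `F` is the sum of the `p (t + d) y p t`, where
`p t` is the projection to the eigenspaces of slope `t`.

The hypothesis: for every strongly irreducible subspace `U` there is a local operator `N` with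
`N ^ 2 = 0` one of whose defects on `U` is two or odd: the rank of `N` on `U`, or the multiplicity of a
nonzero eigenvalue of `N N'` on `U`, for a local operator `N'` with `N' ^ 2 = 0`.

Examples.  Let `F` be a Frobenius element at a place of good reduction which is not supersingular,
with ARBITRARY Newton polygon, and let `p` and `q` be the projections to the parts of the lowest and of
the highest slope.  Let `y` be the operator `γ - 1` at a place of bad reduction of any toric rank, or
the slope operator of a second Frobenius element, again with any Newton polygon (`g F g⁻¹` for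
instance).  Then `N = p y q` and `N' = q y p` are local operators (components of `y`) of square zero,
so that the theorem applies if some nonzero eigenvalue of `p y q y p` has odd multiplicity, or
multiplicity two, on `U`, or if the rank of `p y q` on `U` is two or odd.

Theorem: if this holds for all primes `ℓ ≥ ℓ₀` there is an algebraic group `G ⊆ GSp(V, ψ)` over
`ℚ`, given by a set `S` of polynomials over `ℚ`, namely the Lefschetz group (the similitudes of `ψ`
that commute with `E`), such that `G_{ℚ_ℓ}` is the identity component of the Zariski closure of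
`ρ ℓ (Γ')` for all primes `ℓ ≥ ℓ₀` and all subgroups `Γ'` of finite index (all finite extensions of
`F`).

Before, the case of places of bad reduction alone (`BadPlaces`), and of two ordinary places or one good
place with few coincidences between the ratios of the eigenvalues (`GoodPlaces`) were known.
-/

set_option autoImplicit false

namespace Pool.Agent.Results.MP_e965d0_ag.MixedPlaces

open Module Pool.Agent.W528.ZC Pool.Agent.W522.U Pool.Agent.Y144.QF Pool.Agent.R855.MT
open Pool.Agent.W528.Tor (AltDual)

noncomputable section

/-- Every strongly irreducible subspace `U` is self-dual with an alternating pairing, and some local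
operator `N` with `N ^ 2 = 0` has on `U` a defect that is two or odd. -/
def HasMixedPlaces {K X Γ : Type} [Field K] [AddCommGroup X] [Module K X] [Group Γ]
    (R : Representation K Γ X) (χ : Γ →* K) : Prop :=
  ∀ U, SI R U → AltDual R χ U ∧ ∃ N, IsLocal R χ N ∧ N * N = 0 ∧
    ∃ d, IsDefect R χ U N d ∧ (d = 2 ∨ Odd d)

/-- The representation `ρ` on the `ℓ`-adic Tate module has the known properties (`Known`), and
`HasMixedPlaces`. -/
def GoodAt {ι : Type} [Fintype ι] [DecidableEq ι] {Γ : Type} [Group Γ] (ψ : Matrix ι ι ℚ)
    (E : Set (Matrix ι ι ℚ)) (ℓ : ℕ) [Fact ℓ.Prime] (ρ : Γ →* Matrix ι ι ℚ_[ℓ])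
    (χ : Γ →* ℚ_[ℓ]) : Prop :=
  Known (AlgebraicClosure ℚ_[ℓ]) ρ χ (mapQ ℚ_[ℓ] ψ) (mapQ ℚ_[ℓ] '' E) ∧
    HasMixedPlaces (repM ρ (AlgebraicClosure ℚ_[ℓ]))
      ((algebraMap ℚ_[ℓ] (AlgebraicClosure ℚ_[ℓ])).toMonoidHom.comp χ)

theorem result {ι : Type} [Fintype ι] [DecidableEq ι] (ψ : Matrix ι ι ℚ)
    (_halt : ψ.transpose = -ψ) (hψ : IsUnit ψ.det) (E : Set (Matrix ι ι ℚ))
    {Γ : Type} [Group Γ] (ρ : ∀ (ℓ : ℕ) [Fact ℓ.Prime], Γ →* Matrix ι ι ℚ_[ℓ])
    (χ : ∀ (ℓ : ℕ) [Fact ℓ.Prime], Γ →* ℚ_[ℓ]) (ℓ₀ : ℕ)
    (hgood : ∀ (ℓ : ℕ) [Fact ℓ.Prime], ℓ₀ ≤ ℓ → GoodAt ψ E ℓ (ρ ℓ) (χ ℓ)) :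
    ∃ S : Set (MvPolynomial (ι × ι) ℚ),
      (∀ (L : Type) [Field L] [Algebra ℚ L] (g : Matrix ι ι L), IsUnit g.det →
        (IsZeroOf S g ↔ InLefschetz ψ E g)) ∧
      ∀ (ℓ : ℕ) [Fact ℓ.Prime], ℓ₀ ≤ ℓ → ∀ Γ' : Subgroup Γ, Γ'.FiniteIndex →
        ∀ g : Matrix ι ι (AlgebraicClosure ℚ_[ℓ]), IsUnit g.det →
          (InIdentityComponent ((ρ ℓ).comp Γ'.subtype) g ↔ IsZeroOf S g) := by
  refine common_form ψ hψ E ρ χ ℓ₀ fun ℓ _ hℓ => ⟨(hgood ℓ hℓ).1, ?_⟩
  exact Pool.Agent.R855.MT.QF.hasOne_of_local (unit_mapQ hψ ℓ) (hgood ℓ hℓ).1 (hgood ℓ hℓ).2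

end

end Pool.Agent.Results.MP_e965d0_ag.MixedPlaces
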