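import Mathlib
import Pool.Agent.R855.MT.K3

/-!
# Common `ℚ`-form of the `ℓ`-adic monodromy groups with one place for each geometric piece

Let `A` be an abelian variety over a number field `F`, `V = H_1(A(ℂ), ℚ)` with a basis indexed by
`ι`, `ψ` the matrix of a Riemann form, `E` the set of the matrices of the endomorphisms of `A` over
the algebraic closure of `F`, `Γ` the absolute Galois group of `F`, `ρ ℓ` its representation on
`V_ℓ = V ⊗ ℚ_ℓ` and `χ ℓ` the cyclotomic character.  The structure `Known` collects the known
properties of `ρ ℓ` (Weil pairing, Faltings, Hodge-Tate, Pink).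

The *strongly irreducible* subspaces `U` (predicate `SI`) of `ℚ_ℓ^alg ⊗ V_ℓ` are the minimal nonzero
subspaces that are stable under a subgroup of finite index of `Γ`.  If `End(A) = ℤ` there is just
one, the whole space.  All of them are self-dual with an alternating pairing exactly if all simple
factors of `A` are of type I or II in Albert's classification.

The hypothesis (`HasOnePlaces`): for every strongly irreducible subspace `U` there is ONE place (which
may depend on `U`) such that (`IsGoodPiece`)

* the place is a place of good reduction with at most three slopes `t < 1 / 2 < 1 - t`, such that `t`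
  is simple on `U` (abelian varieties of K3 type, for `t = 0`); here the slopes of the
  eigenvalues of the Frobenius element are taken with respect to some extension of the `p`-adic
  valuation to the field `K`, or more generally with respect to some homomorphism from the
  multiplicative group of `K` to its additive group; for instance, if the place is ordinary, it is
  enough that exactly one eigenvalue on `U` has prescribed slopes with respect to two extensions of
  the valuation (the homomorphism is then the mean of the two valuations); or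
* `U` has dimension at most four, and the place is a place of good reduction with at most three
  slopes `t < 1 / 2 < 1 - t` of which `t` occurs on `U` (`t = 0` or not; for instance the reduction is
  ordinary, or the reduction of an abelian surface is not supersingular); or
* there is an element `γ` with `(γ - 1) ^ 2 = 0` (in the inertia group of a place of semistable
  reduction) such that `γ - 1` has rank one or two on `U`.

The normalization in `IsGoodPiece`: `s i = w (a i) - w (χ F) / 2` takes the values `1 / 2`, `0` and
`- 1 / 2`, where `a i` are the eigenvalues of the Frobenius element `F` and `w` is the valuation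
multiplied by `1 / (1 - 2 t)`.

Theorem: if this holds for all primes `ℓ ≥ ℓ₀` there is an algebraic group `G ⊆ GSp(V, ψ)` over
`ℚ`, given by a set `S` of polynomials over `ℚ`, namely the Lefschetz group (the similitudes of `ψ`
that commute with `E`), such that `G_{ℚ_ℓ}` is the identity component of the Zariski closure of
`ρ ℓ (Γ')` for all primes `ℓ ≥ ℓ₀` and all subgroups `Γ'` of finite index (all finite extensions of
`F`).

There is no condition that compares two places, and no condition on the eigenvalues of Frobenius but
their valuations.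

Examples.  `End(A) = ℤ` and one place of good reduction with the slopes `t`, `1 / 2`, `1 - t` where
`t` is simple (and any Frobenius on the part of slope `1 / 2`), in all dimensions (Zarhin for `t = 0`).
All products of powers of abelian surfaces and elliptic curves without complex multiplication,
abelian varieties with real multiplication by a totally real field `E` of degree `dim A / 2` (the
pieces `U` have dimension four) with one nonsupersingular place for each piece, and abelian
varieties of type II with pieces of dimension four.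

The proof.  The element of the Lie algebra given by the slopes has the eigenvalues `1 / 2`, `0`,
`- 1 / 2`. If `1 / 2` is simple on `U`, the part of degree one of the Lie algebra is not zero on `U`
(otherwise there would be a stable subspace), and so it has rank one; then the Lie algebra is the full
symplectic Lie algebra on `U`, as it contains a transvection.
-/

set_option autoImplicit false

namespace Pool.Agent.Results.MP_e965d0_ag.OnePlaceForEachPiece

open Module Pool.Agent.W528.ZC Pool.Agent.W522.U Pool.Agent.Y144.QF Pool.Agent.R855.MT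
open Pool.Agent.W528.Tor (AltDual)

noncomputable section

/-- There is one good place for `U`, see the description above. -/
def IsGoodPiece {K X Γ : Type} [Field K] [AddCommGroup X] [Module K X] [Group Γ]
    (R : Representation K Γ X) (χ : Γ →* K) (U : Submodule K X) : Prop :=
  (∃ (n : ℕ) (b : Basis (Fin n) K X) (s : Fin n → K), IsGrading R χ b s ∧
    (∀ i, s i = 1 / 2 ∨ s i = 0 ∨ s i = -(1 / 2)) ∧
    (finrank K (U ⊓ LinearMap.ker (gradingOperator b s - (1 / 2 : K) • (1 : Module.End K X)) :
        Submodule K X) = 1 ∨
      (finrank K U ≤ 4 ∧ U.map (gradingOperator b s) ≠ ⊥))) ∨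
  ∃ γ : Γ, (R γ - 1) * (R γ - 1) = 0 ∧
    (finrank K (U.map (R γ - 1)) = 1 ∨ finrank K (U.map (R γ - 1)) = 2)

/-- Every strongly irreducible subspace `U` is self-dual with an alternating pairing, and there is one
good place for `U`. -/
def HasOnePlaces {K X Γ : Type} [Field K] [AddCommGroup X] [Module K X] [Group Γ]
    (R : Representation K Γ X) (χ : Γ →* K) : Prop :=
  ∀ U, SI R U → AltDual R χ U ∧ IsGoodPiece R χ U

/-- The representation `ρ` on the `ℓ`-adic Tate module has the known properties (`Known`), and
`HasOnePlaces`. -/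
def GoodAt {ι : Type} [Fintype ι] [DecidableEq ι] {Γ : Type} [Group Γ] (ψ : Matrix ι ι ℚ)
    (E : Set (Matrix ι ι ℚ)) (ℓ : ℕ) [Fact ℓ.Prime] (ρ : Γ →* Matrix ι ι ℚ_[ℓ])
    (χ : Γ →* ℚ_[ℓ]) : Prop :=
  Known (AlgebraicClosure ℚ_[ℓ]) ρ χ (mapQ ℚ_[ℓ] ψ) (mapQ ℚ_[ℓ] '' E) ∧
    HasOnePlaces (repM ρ (AlgebraicClosure ℚ_[ℓ]))
      ((algebraMap ℚ_[ℓ] (AlgebraicClosure ℚ_[ℓ])).toMonoidHom.comp χ)

theorem result {ι : Type} [Fintype ι] [DecidableEq ι] (ψ : Matrix ι ι ℚ)
    (_halt : ψ.transpose = -ψ) (hψ : IsUnit ψ.det) (E : Set (Matrix ι ι ℚ))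
    {Γ : Type} [Group Γ] (ρ : ∀ (ℓ : ℕ) [Fact ℓ.Prime], Γ →* Matrix ι ι ℚ_[ℓ])
    (χ : ∀ (ℓ : ℕ) [Fact ℓ.Prime], Γ →* ℚ_[ℓ]) (ℓ₀ : ℕ)
    (hgood : ∀ (ℓ : ℕ) [Fact ℓ.Prime], ℓ₀ ≤ ℓ → GoodAt ψ E ℓ (ρ ℓ) (χ ℓ)) :
    ∃ S : Set (MvPolynomial (ι × ι) ℚ),
      (∀ (L : Type) [Field L] [Algebra ℚ L] (g : Matrix ι ι L), IsUnit g.det →
        (IsZeroOf S g ↔ InLefschetz ψ E g)) ∧
      ∀ (ℓ : ℕ) [Fact ℓ.Prime], ℓ₀ ≤ ℓ → ∀ Γ' : Subgroup Γ, Γ'.FiniteIndex →
        ∀ g : Matrix ι ι (AlgebraicClosure ℚ_[ℓ]), IsUnit g.det →
          (InIdentityComponent ((ρ ℓ).comp Γ'.subtype) g ↔ IsZeroOf S g) := by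
  refine common_form ψ hψ E ρ χ ℓ₀ fun ℓ _ hℓ => ⟨(hgood ℓ hℓ).1, ?_⟩
  have h := (hgood ℓ hℓ).1
  have hψ' := unit_mapQ hψ ℓ
  have hnd := om_nondeg (Ω := AlgebraicClosure ℚ_[ℓ]) hψ'
  have hω := om_inv (Ω := AlgebraicClosure ℚ_[ℓ]) h.form
  have hL := isLie_HZ hnd hω
  have hpr := hasProj_repM (ρ ℓ) (Ω := AlgebraicClosure ℚ_[ℓ]) h.semi
  have hP := hodgeGen_HZ (hodge_iff (ρ ℓ) _ h.pink)
  intro U hU
  obtain ⟨halt, hgp⟩ := (hgood ℓ hℓ).2 U hU
  refine ⟨halt, ?_⟩
  rcases hgp with ⟨n, b, s, hbs, hs, hcase⟩ | ⟨γ, hγ, hr⟩
  · have hD := Pool.Agent.R855.MT.QF.grading_HZ hω b s hbs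
    have h3 := Pool.Agent.R855.MT.QF.grading_three b s hs
    have hst := hL.stable hpr hU.2.1 hD
    have hDU : ∀ u : U, (((gradingOperator b s).restrict hst u : U) : _) = gradingOperator b s u :=
      fun u => rfl
    rcases hcase with h1 | ⟨h4, h1⟩
    · refine Pool.Agent.R855.MT.QF.one_of_K3' hL hnd hω hpr hU hD h3 hDU hP halt ?_
      rw [Pool.Agent.R855.MT.QF.finrank_fp hDU h3, h1]
    · refine Pool.Agent.R855.MT.QF.one_of_dim_four' hL hnd hω hpr hU hD h3 hDU hP halt h4 ?_
      intro h0
      apply h1
      rw [eq_bot_iff]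
      rintro _ ⟨u, hu, rfl⟩
      rw [Submodule.mem_bot]
      have h5 := hDU ⟨u, hu⟩
      rw [h0] at h5
      exact h5.symm
  · rcases hr with hr | hr
    · exact Pool.Agent.R855.MT.QF.one_of_local' hL
        (fun b s hbs => Pool.Agent.R855.MT.QF.grading_HZ hω b s hbs) hnd hω hpr hU halt hP
        (IsLocal.inertia γ hγ) hγ (Or.inl hr.symm) (Or.inr odd_one)
    · exact Pool.Agent.R855.MT.QF.one_of_local' hL
        (fun b s hbs => Pool.Agent.R855.MT.QF.grading_HZ hω b s hbs) hnd hω hpr hU halt hP
        (IsLocal.inertia γ hγ) hγ (Or.inl hr.symm) (Or.inl rfl)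

end

end Pool.Agent.Results.MP_e965d0_ag.OnePlaceForEachPiece
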