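import Pool.Agent.R940.TnV

/-!
# Common rational forms of `ℓ`-adic monodromy groups and the number of Tate tensors

`A` is an abelian variety over a number field, `V = H_1(A(ℂ), ℚ)`, `b = 2 dim A`, `Λ` is a set of
primes, `D.K l` is an algebraic closure of `ℚ_l` and `D.ρ l` is the Galois representation on
`V ⊗ D.K l`, in a basis of `V`.

`D.common a` is the set of the rational tensors in `End(V^{⊗a})` that are Tate for all `l ∈ Λ`,
`D.span l a` is its span, `D.rat_rank l n` is the rank of the trace form on `D.span l (n+1)` and
`D.tate l n` is the dimension of the space of all `l`-adic Tate tensors in `End(V^{⊗(n+1)})`.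

For all `l ∈ Λ` and `a ≥ 1`, either the `l`-adic Tate tensors in `End(V^{⊗a})` are spanned by
rational tensors that are Tate for all primes in `Λ`, or
`D.tate l n ≥ 2(1 - a b^{2a+2} log(n+2)/n) · D.rat_rank l n` for all `n ≥ 1`.

If the images of the subgroups of finite index are completely reducible (Faltings) and contain
infinitely many homotheties (Bogomolov), the first case holds for all `a` if and only if
`D.tate l n ≤ c · D.rat_rank l n` for infinitely many `n`, for some `c < 2`, and then the images are
Zariski dense in the group of the matrices fixing all rational tensors that are Tate for all primes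
in `Λ`, given by the same equations with rational coefficients for all `l` (the common rational
form).
-/

namespace Pool.Agent.Results.MP_e965d0_ag.RationalTensorsRatioTwo

open Pool.Agent.R940 Filter

universe v w

/-- **Rational Tate tensors against all Tate tensors: the ratio two.** -/
theorem result {b : ℕ} (hb : 0 < b) {Γ : Type w} [Group Γ] {Λ : Type}
    (D : TateFamily.{v} b Γ Λ) (l : Λ) :
    (∀ a : ℕ, 0 < a → (tateSubT (D.ρ l) (Fin a) (Fin a) = D.span l a ∨
      ∀ n : ℕ, 0 < n → 2 * (1 - a * (b : ℝ) ^ (2 * a + 2) * Real.log (n + 2) / n) *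
        D.rat_rank l n ≤ D.tate l n)) ∧
    (D.Regular l →
      ((∀ a, tateSubT (D.ρ l) (Fin a) (Fin a) = D.span l a) ↔
        ∃ c : ℝ, c < 2 ∧ ∃ᶠ n in atTop, (D.tate l n : ℝ) ≤ c * D.rat_rank l n) ∧
      ((∀ a, tateSubT (D.ρ l) (Fin a) (Fin a) = D.span l a) →
        D.DenseImages l)) :=
  ⟨fun _ ha => D.dichotomy hb l ha, fun hD => D.law hb l hD⟩

end Pool.Agent.Results.MP_e965d0_ag.RationalTensorsRatioTwo
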