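import Pool.Agent.R914.CF.Fin

/-!
# The common `ℚ`-form of the `ℓ`-adic monodromy groups and the Tate tensors of bounded degree

Let `A` be an abelian variety of dimension `g` over a number field `K`, `V = H₁(A(ℂ), ℚ)`,
`b = 2 g`, and `ψ` a Riemann form. For a prime number `ℓ` the absolute Galois group `Γ` of `K` acts
on `V_ℓ = V ⊗ ℚ_ℓ`. A Tate tensor of degree `2 j` is an element of `V_ℓ^⊗(2 j)` which is
multiplied by the `j`-th power of the cyclotomic character by an open subgroup of `Γ`. Put

`N = (b ^ 2 + 1) ((2 b! + 1) (b ^ 2 + 1)) ^ (b ^ 2)`.

**Theorem.** Let `Λ` be a set of prime numbers (for instance all sufficiently large ones). The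
identity components of the Zariski closures of the images of `Γ` in `GL(V_ℓ)`, `ℓ` in `Λ`, have a
common `ℚ`-form (they are given by one subgroup of `GSp(V, ψ)` over `ℚ`) if and only if for all
`j ≤ N` there is a space of rational tensors which spans the space of the Tate tensors of degree `2 j`
over `ℚ_ℓ`, for all `ℓ` in `Λ`.

So the question of Mumford, Serre and Tate for `A` is a question on tensors of bounded degree, and the
bound depends only on the dimension of `A`.

The proof. For an element `F` of `Γ` which acts like a Frobenius element, for the prime number `p`, and
an embedding of the field generated by the eigenvalues into an algebraic closure of `ℚ_p` the slopes of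
the eigenvalues (shifted by one half and multiplied by `2 b!`) define a one-parameter group of degree
at most `b!`. Let `𝒢` be the group generated by all these one-parameter groups. Its invariants are
exactly the Tate tensors (product formula, Chebotarev, Burnside; see the file
`Pool.Agent.Results.MP_6c781a_ag.OnePowerSuffices`), and it is contained in the Zariski closure of
the image of every subgroup of finite index (double commutant theorem, and weights). Counting
dimensions of spaces of polynomials (a coarse form of the theorem of Bézout) shows that a matrix `x`
such that all polynomials of degree at most `N` which vanish on `𝒢` vanish on `x 𝒢` belongs to the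
Zariski closure of `𝒢`; by the double commutant theorem it is enough that `x` fixes the invariants of
`𝒢` in degrees at most `2 N`. So the stabiliser of the Tate tensors of degrees at most `2 N` is
the identity component. Conversely, the tensors which are fixed by a group defined over `ℚ` are
spanned by rational tensors (descent for the automorphisms of the field of complex numbers).

(The field `ℚ_ℓ` is embedded in the field of complex numbers, for every `ℓ` in `Λ`; Zariski closures and
spaces of Tate tensors are compatible with extensions of the field. The semisimplicity is the theorem
of Faltings. Only the image of `Γ` in `GL(V_ℓ)` matters, a compact `ℓ`-adic Lie group, in which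
subgroups of finite index are open.)
-/

namespace Pool.Agent.Results.MP_e965d0_ag.TensorsOfBoundedDegree

open Pool.Agent.R914.CF

/-- Let `R l` (`l` in `Λ`) be representations of a group `Γ` on a space with a rational basis of
`b > 0` elements with the properties (`IsAbelian`) of the `ℓ`-adic representations of an abelian
variety with the Riemann form `ψ`. The identity components of the Zariski closures of their images
have a common `ℚ`-form if and only if the spaces of the Tate tensors of degree `2 j` have a common
`ℚ`-form for all `j` up to the explicit number `tensorBound b`; and then they do for all `j`. -/
theorem result {Γ : Type} [Group Γ] {b : ℕ} (hb : 0 < b) {Λ : Type} (R : Λ → Rep Γ b)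
    (ψ : Matrix (Fin b) (Fin b) ℚ) (hψ : ψ.det ≠ 0) (h : ∀ l, IsAbelian (R l) ψ) :
    (CommonGroup R ↔ ∀ j ≤ tensorBound b, CommonTensors R j) ∧
      ((∀ j ≤ tensorBound b, CommonTensors R j) → ∀ j, CommonTensors R j) :=
  main hb hψ h

end Pool.Agent.Results.MP_e965d0_ag.TensorsOfBoundedDegree
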